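import Pool.Agent.K6.H14.PCF.Orb
import Pool.Agent.Y955.PF.Top
import Pool.Agent.Y955.PF.Iso
import Pool.Agent.Y955.PF.Pow
import Pool.Agent.Y955.PF.Mod
import Pool.Agent.Y955.PF.PA
import Pool.Agent.Y955.PF.PB
import Pool.Agent.Y955.PF.Alpha
import Pool.Agent.Y955.PF.Beta

/-!
# Q1 of `MP_505b57_nt` in all degrees `d ≥ 3`, for all primes

For `p ≤ d` this is the starting result `InfiniteSmallPrimes`; the new case is `p > d`, with the maps
`μ w (w - 1 + ε)^(d-1) / (w - 1)` over `ℚ_p` (`Pool/Agent/K6/H14/PCF/`). The critical points are
`1 - ε` (which goes to the fixed point `0`), `∞` (fixed) and two simple ones. The critical value of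
the one next to the pole `1` lies near the fixed point `0`; it is made periodic of period dividing
`p - 1` by tuning the multiplier of that fixed point. The orbit of the other one passes `N + 1` times
close to the pole `1` and ends in it.
-/

set_option autoImplicit false

namespace Pool.Agent.Results.MP_505b57_nt.InfiniteDegreeAtLeastThree

open Pool.Agent.Y955.PF

/-- For every `d ≥ 3` and every prime `p` the set `M_d(ℚ_p) ∩ PCF` is infinite: there are infinitely
many points of the moduli space of rational maps of degree `d` over the algebraic closure of `ℚ_p`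
which are rational over `ℚ_p` and are conjugacy classes of postcritically finite maps.

The definitions (`Rat`, `Moduli`, `RationalPoints`, `PCF`) are in `Pool/Agent/Y955/PF/Stm.lean`. -/
theorem result (p : ℕ) [Fact p.Prime] (d : ℕ) (hd : 3 ≤ d) :
    (RationalPoints p d ∩ PCF (AlgebraicClosure ℚ_[p]) d).Infinite := by
  rcases le_or_gt p d with h | h
  · exact top mod_inf (alpha_of iso pow_norm) beta pa pb p d (by omega) h
  · exact mod_inf p d (by omega) (fun N => Pool.Agent.K6.H14.PCF.good_large hd h N)

end Pool.Agent.Results.MP_505b57_nt.InfiniteDegreeAtLeastThree
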