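import Pool.Agent.K6.H14.PG.Top
import Pool.Agent.K6.H14.PG.P_EST
import Pool.Agent.K6.H14.PG.P_LNK
import Pool.Agent.K6.H14.PG.P_CUR
import Pool.Agent.K6.H14.PG.P_CUR2
import Pool.Agent.K6.H14.PG.P_B1
import Pool.Agent.K6.H14.PG.P_STEP
import Pool.Agent.K6.H14.PG.P_FIN
import Pool.Agent.K6.H14.PG.P_GD
import Pool.Agent.K6.H14.PG.P_CA
import Pool.Agent.K6.H14.PG.P_CB
import Pool.Agent.K6.H14.PG.P_CB2

/-!
# Q1 of `MP_505b57_nt` in degree two: a criterion modulo `p ^ 2`, and the primes below `200`

In all degrees `d ≥ 3`, and for `p = d = 2`, the set `M_d(ℚ_p) ∩ PCF` is infinite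
(`InfiniteDegreeAtLeastThree`, `InfiniteSmallPrimes`); for `d = 2` it is infinite for the primes of
`QuadraticInfinitelyManyPrimes`, an infinite set of odd primes of which `3, 7, 13, 31` are the smallest.
Here all quadratic rational maps with a repelling fixed point of large multiplier are used, and not only
those with a superattracting cycle of period two.

**Theorem.** Suppose that there is an integer `τ` with the following properties. Let
`h(u) = u + 1 / u + τ` modulo `p ^ 2`.
* (A) The orbit of `1` under `h` consists of units until, after at least two steps, it comes to an element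
  which is divisible by `p` but not by `p ^ 2`; the element before is not `1` or `-1` modulo `p`.
* (B) Either the orbit of `-1` under `h` consists of units, and its elements number `n` and `M` are equal
  modulo `p ^ 2`, where `n < M`, and modulo `p` the derivatives of these two elements with respect to `τ`
  differ; or this orbit consists of units until its element number `M`, which is `0` modulo `p ^ 2`, and
  the derivative of this element with respect to `τ` is not `0` modulo `p`.

Then `M_2(ℚ_p) ∩ PCF` is infinite. There is such a `τ` for every prime `p` with `5 ≤ p < 200` other than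
`11`.

**Proof.** Let `F(u) = u / (k (u ^ 2 + t u + 1))` with `k, t ∈ ℚ_p`, `k` small and `t` close to `τ`. The
critical points are `1` and `-1`. At the points with `|u| = |u ^ 2 + t u + 1| = 1` the second iterate of
`F` is close to `u + 1 / u + t`. By (B) and Newton's method there is a `p`-adic curve `t = t(k)` on which
the orbit of `-1` is finite. By (A), on this curve the orbit of `1` comes to a point `u(k)` at distance
`1 / p` of `0`, and `F(u(k))` is any given point in all but one of the residue classes if `|k| = 1 / p`
is chosen suitably. One takes it in the class of a root `c` of `u ^ 2 + τ u + 1`, or in the class of a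
point whose image comes into that class. Then, moving `k` in smaller and smaller discs, one makes the
orbit of `1` return to this class `N` times, and end in a pole. (The pieces were written by helper1 (CB),
helper15 (CUR), helper29 (STEP), helper31 (LNK), helper35 (FIN), helper38 (EST), helper57 (B1), helper66
(CA), helper99 (GD).)
-/

set_option autoImplicit false

namespace Pool.Agent.Results.MP_505b57_nt.QuadraticCriterion

open Pool.Agent.Y955.PF Pool.Agent.K6.H14.PG

/-- If there are certificates modulo `p ^ 2` for the prime `p` in the sense of `HasCert` then the set
`M_2(ℚ_p) ∩ PCF` is infinite: there are infinitely many points of the moduli space of rational maps of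
degree `2` over the algebraic closure of `ℚ_p` which are rational over `ℚ_p` and are conjugacy classes of
postcritically finite maps. It is infinite for every prime `p` with `5 ≤ p < 200` other than `11`. -/
theorem result :
    (∀ (p : ℕ) [Fact p.Prime], HasCert p →
      (RationalPoints p 2 ∩ PCF (AlgebraicClosure ℚ_[p]) 2).Infinite) ∧
    ∀ (p : ℕ) [Fact p.Prime], 5 ≤ p → p < 200 → p ≠ 11 →
      (RationalPoints p 2 ∩ PCF (AlgebraicClosure ℚ_[p]) 2).Infinite := by
  have h : ∀ (p : ℕ) [Fact p.Prime], HasCert p →
      (RationalPoints p 2 ∩ PCF (AlgebraicClosure ℚ_[p]) 2).Infinite := fun p _ hp =>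
    main (t_CUR t_EST t_LNK) (t_CUR2 t_EST t_LNK) (t_BAS t_EST t_LNK t_B1) t_STEP t_FIN t_GD t_CA
      t_CB t_CB2 p hp
  refine ⟨fun p _ hp => h p hp, fun p hf h5 h200 h11 => h p ?_⟩
  exact cert_all p hf.out h5 h200 h11

end Pool.Agent.Results.MP_505b57_nt.QuadraticCriterion
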