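import Pool.Agent.K6.H14.PD.Top
import Pool.Agent.K6.H14.PD.P_GD
import Pool.Agent.K6.H14.PD.P_YJ
import Pool.Agent.K6.H14.PD.P_XY
import Pool.Agent.K6.H14.PD.P_TN
import Pool.Agent.K6.H14.PD.P_DN1
import Pool.Agent.K6.H14.PD.P_DN2
import Pool.Agent.K6.H14.PD.P_B1
import Pool.Agent.K6.H14.PD.P_B2
import Pool.Agent.K6.H14.PD.P_STEP
import Pool.Agent.K6.H14.PD.P_FIN

/-!
# Q1 of `MP_505b57_nt` in degree two, for infinitely many odd primes

In all degrees `d ≥ 3`, and for `p = d = 2`, the set `M_d(ℚ_p) ∩ PCF` is infinite
(`InfiniteDegreeAtLeastThree`, `InfiniteSmallPrimes`), while for odd `p` there are only finitely many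
postcritically finite quadratic polynomials over `ℚ_p` (`QuadraticFinite`). Here the quadratic rational
maps over `ℚ_p`, `p` odd, are considered. Let `s 0 = 1`, `s (n + 1) = s n * d n`,
`d n = 2 ^ (2 ^ n) - s n`, so that `d 1 = 3`, `d 2 = 13`, `d 3 = 217 = 7 * 31`, `d 4 = 57073`. The
primes which divide one of these numbers are the odd primes `p` for which the orbit of `-1/2` under
`z ^ 2 + z` modulo `p` contains `-1`.

**Theorem.** If `p` is such a prime then `M_2(ℚ_p) ∩ PCF` is infinite. There are infinitely many such
primes.

**Proof.** Let `f(z) = a / (z (z + 1))`, `a ∈ ℚ_p` small. The critical points are `∞`, which has period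
two (`∞ → 0 → ∞`), and `-1/2`; `-1 → ∞`. At the points with `|z| = |z + 1| = 1` the second iterate of
`f` is close to `z ^ 2 + z`; so after `2 n` steps the orbit of `-1/2` comes close to the pole `-1`, at
a distance `η` which is not zero. If `|a| = |η|` then the next point is any given point in all but one
of the residue classes, if `a` is chosen suitably, in particular close to `-1` or to another point
which comes close to `-1` again. So the orbit can be made to pass `N` times near `-1` and to end in
`-1`. (The pieces were written by helper23 (FIN), helper29 (XY), helper35 (TN), helper42 (YJ),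
helper52 (GD), helper59 (DN2), helper66 (B2), helper90 (B1, STEP), helper95 (DN1).)
-/

set_option autoImplicit false

namespace Pool.Agent.Results.MP_505b57_nt.QuadraticInfinitelyManyPrimes

open Pool.Agent.Y955.PF Pool.Agent.K6.H14.PD

/-- Let `s 0 = 1`, `s (n + 1) = s n * d n`, `d n = 2 ^ (2 ^ n) - s n`. For every prime `p` which divides
one of the numbers `d n` the set `M_2(ℚ_p) ∩ PCF` is infinite: there are infinitely many points of the
moduli space of rational maps of degree `2` over the algebraic closure of `ℚ_p` which are rational over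
`ℚ_p` and are conjugacy classes of postcritically finite maps. There are infinitely many such primes,
and they are odd. -/
theorem result :
    (∀ (p : ℕ) [Fact p.Prime], (∃ n, (p : ℤ) ∣ d n) →
      p ≠ 2 ∧ (RationalPoints p 2 ∩ PCF (AlgebraicClosure ℚ_[p]) 2).Infinite) ∧
    {p : ℕ | p.Prime ∧ ∃ n, (p : ℤ) ∣ d n}.Infinite := by
  refine ⟨fun p _ h => ⟨?_, ?_⟩, t_DN2⟩
  · obtain ⟨n, hn⟩ := h
    exact (t_DN1 p n hn).1
  · exact main t_GD t_DN1 t_STEP t_FIN (t_BAS t_YJ (t_XY t_YJ) t_TN t_B1 t_B2) p h

end Pool.Agent.Results.MP_505b57_nt.QuadraticInfinitelyManyPrimes
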